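import Pool.Agent.H76.CH.Main
import Pool.Graph.R_seed8.H141R2.FS.Main1

/-!
# Four squares whose linear form starts a Chen-type quadruple
-/

set_option autoImplicit false

namespace Pool.Agent.Results.MP_40574a_nt.ChenQuadruples

open Finset Filter Pool.Agent.H76.CH

/-- the four shifts -/
def U : Finset ℤ := {-2, 0, 4, 10}

/-- the shifts relative to `s` -/
def Hs (s : ℤ) : Finset ℤ := (U.erase s).image (fun u => u - s)

theorem mem_Hs {s u : ℤ} (hu : u ∈ U) (hus : u ≠ s) : u - s ∈ Hs s :=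
  mem_image.2 ⟨u, mem_erase.2 ⟨hus, hu⟩, rfl⟩

theorem Hs_zero (s : ℤ) : (0 : ℤ) ∉ Hs s := by
  intro h
  rw [Hs, mem_image] at h
  obtain ⟨u, hu, hu2⟩ := h
  exact (mem_erase.1 hu).1 (by linarith)

theorem Hs_card {s : ℤ} (hs : s ∈ U) : (Hs s).card = 3 := by
  rw [Hs, card_image_of_injective _ (sub_left_injective), card_erase_of_mem hs]
  rfl

theorem adm {s : ℤ} (hs : s ∈ U) : Adm (Hs s) := by
  intro p hp
  have key : ∃ c : ℤ, ∀ u ∈ U, ¬ (p : ℤ) ∣ c + u := by
    by_cases h : p = 5 ∨ p = 11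
    · refine ⟨3, ?_⟩
      intro u hu
      simp only [U, mem_insert, mem_singleton] at hu
      rcases h with h | h <;> subst h <;> rcases hu with h | h | h | h <;> subst h <;> decide
    · refine ⟨1, ?_⟩
      push Not at h
      intro u hu hd
      have hp2 := hp.two_le
      simp only [U, mem_insert, mem_singleton] at hu
      rcases hu with h' | h' | h' | h' <;> subst h'
      · have h1 : (p : ℤ) ∣ 1 := by
          have := (dvd_neg (a := (p : ℤ))).2 hd
          norm_num at this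
          exact_mod_cast this
        have h2 : p ∣ 1 := by exact_mod_cast h1
        have := Nat.le_of_dvd (by norm_num) h2
        omega
      · have h2 : p ∣ 1 := by exact_mod_cast hd
        have := Nat.le_of_dvd (by norm_num) h2
        omega
      · have h2 : p ∣ 5 := by
          have : ((1 : ℤ) + 4) = ((5 : ℕ) : ℤ) := by norm_num
          rw [this] at hd
          exact_mod_cast hd
        exact h.1 ((Nat.prime_dvd_prime_iff_eq hp (by norm_num)).1 h2)
      · have h2 : p ∣ 11 := by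
          have : ((1 : ℤ) + 10) = ((11 : ℕ) : ℤ) := by norm_num
          rw [this] at hd
          exact_mod_cast hd
        exact h.2 ((Nat.prime_dvd_prime_iff_eq hp (by norm_num)).1 h2)
  obtain ⟨c, hc⟩ := key
  refine ⟨c + s, hc s hs, ?_⟩
  intro h hh
  rw [Hs, mem_image] at hh
  obtain ⟨u, hu, rfl⟩ := hh
  have := hc u (mem_erase.1 hu).2
  have e : c + s + (u - s) = c + u := by ring
  rwa [e]

/-- a number whose prime factors are all large has few of them -/
theorem few {a m : ℕ} {y : ℝ} (hm : m ≠ 0) (h : ∀ q : ℕ, q.Prime → q ∣ m → y < q)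
    (hma : (m : ℝ) < y ^ (a + 1)) (hy1 : 1 ≤ y) : m.primeFactorsList.length ≤ a := by
  by_contra hcon
  push Not at hcon
  have key : ∀ l : List ℕ, (∀ q ∈ l, y < q) → y ^ l.length ≤ ((l.prod : ℕ) : ℝ) := by
    intro l
    induction l with
    | nil => intro _; simp
    | cons b l ih =>
      intro hl
      rw [List.length_cons, List.prod_cons, pow_succ, Nat.cast_mul, mul_comm]
      have h1 := ih (fun q hq => hl q (List.mem_cons_of_mem _ hq))
      have h2 := hl b List.mem_cons_self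
      exact mul_le_mul h2.le h1 (by positivity) (by positivity)
  have h1 := key m.primeFactorsList (fun q hq =>
    h q (Nat.prime_of_mem_primeFactorsList hq) (Nat.dvd_of_mem_primeFactorsList hq))
  rw [Nat.prod_primeFactorsList hm] at h1
  have h2 : y ^ (a + 1) ≤ y ^ m.primeFactorsList.length := pow_le_pow_right₀ hy1 (by omega)
  linarith

theorem up {k x C d : ℝ} (hx : 0 < x) (hd : 0 < d) (h : k ^ 2 ≤ C * x ^ 2) (hC : C ≤ d ^ 2) : k ≤ d * x := by
  have h1 : k ^ 2 ≤ (d * x) ^ 2 := by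
    rw [mul_pow]
    exact h.trans (mul_le_mul_of_nonneg_right hC (by positivity))
  exact le_of_sq_le_sq h1 (by positivity)

theorem dn {k x C d : ℝ} (hk : 0 ≤ k) (h : C * x ^ 2 < (k + 1) ^ 2) (hC : d ^ 2 ≤ C) : d * x ≤ k + 1 := by
  have h1 : (d * x) ^ 2 ≤ (k + 1) ^ 2 := by
    rw [mul_pow]
    exact (mul_le_mul_of_nonneg_right hC (by positivity)).trans h.le
  exact le_of_sq_le_sq h1 (by positivity)

theorem sqx {N b x : ℝ} (hN : 0 ≤ N) (hb : 5 * x ≤ b) (h1 : b < (N + 1) ^ 2) (hx : 1000 ≤ x) : √x ≤ N := by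
  have h2 : (√x) ^ 2 = x := Real.sq_sqrt (by linarith)
  have h3 : 0 ≤ √x := Real.sqrt_nonneg _
  have h5 : 2 ≤ √x := by
    apply Real.le_sqrt_of_sq_le
    linarith
  by_contra h
  push Not at h
  nlinarith

theorem le_sqr {b x : ℝ} (hb : b ≤ 5.48 * x) (hx : 1000 ≤ x) : b + 10 < x ^ 2 := by nlinarith

/-- the size conditions on `n` -/
theorem sizes (B₀ : ℕ) {ε : ℝ} (hε : 0 < ε) : ∃ n₀ : ℕ, ∀ n : ℕ, n₀ ≤ n →
    1000 ≤ √(n : ℝ) ∧ (B₀ : ℝ) ≤ √(n : ℝ) ∧ (5 : ℝ) ≤ (n : ℝ) ^ (ε / 5) := by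
  have h1 : ∀ᶠ n : ℕ in atTop, 1000 ≤ √(n : ℝ) :=
    (Tendsto.comp Real.tendsto_sqrt_atTop tendsto_natCast_atTop_atTop).eventually_ge_atTop 1000
  have h2 : ∀ᶠ n : ℕ in atTop, (B₀ : ℝ) ≤ √(n : ℝ) :=
    (Tendsto.comp Real.tendsto_sqrt_atTop tendsto_natCast_atTop_atTop).eventually_ge_atTop _
  have h3 : ∀ᶠ n : ℕ in atTop, (5 : ℝ) ≤ (n : ℝ) ^ (ε / 5) :=
    (Tendsto.comp (tendsto_rpow_atTop (by positivity)) tendsto_natCast_atTop_atTop).eventually_ge_atTop 5
  obtain ⟨n₀, hn⟩ := eventually_atTop.1 (h1.and (h2.and h3))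
  exact ⟨n₀, hn⟩

/-- Let `s ≠ t` be two of the shifts `-2, 0, 4, 10`.  For every large `n` not divisible by `4` there are at least
`c √n / (log n)^4` values `p = x + 2 y + 5 z` taken at representations `n = x² + y² + z² + w²` in natural numbers
such that `29 n ≤ p² ≤ 30 n`, `p + s` is prime, `p + t` has at most two prime factors, and all four numbers
`p - 2, p, p + 4, p + 10` have at most `r` prime factors, all of them larger than `n ^ δ`. -/
theorem result : ∀ s ∈ ({-2, 0, 4, 10} : Finset ℤ), ∀ t ∈ ({-2, 0, 4, 10} : Finset ℤ), s ≠ t →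
    ∃ δ c : ℝ, 0 < δ ∧ 0 < c ∧ ∃ r n₀ : ℕ, ∀ n : ℕ, n₀ ≤ n → ¬ 4 ∣ n →
      c * √(n : ℝ) / Real.log n ^ 4 ≤
        ({p : ℕ | 29 * n ≤ p ^ 2 ∧ p ^ 2 ≤ 30 * n ∧
          (∃ x y z w : ℕ, n = x ^ 2 + y ^ 2 + z ^ 2 + w ^ 2 ∧ p = x + 2 * y + 5 * z) ∧
          ((p : ℤ) + s).toNat.Prime ∧ ((p : ℤ) + t).toNat.primeFactorsList.length ≤ 2 ∧
          ∀ u ∈ ({-2, 0, 4, 10} : Finset ℤ), ((p : ℤ) + u).toNat.primeFactorsList.length ≤ r ∧
            ∀ q : ℕ, q.Prime → q ∣ ((p : ℤ) + u).toNat → (n : ℝ) ^ δ < q}.ncard : ℝ) := by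
  classical
  intro s hs t ht hst
  obtain ⟨ε, c, hε0, hε8, hc, B₀, hB⟩ := chen (Hs s) (t - s) (mem_Hs ht (Ne.symm hst)) (Hs_zero s) (adm hs)
    (1 / 100) (by norm_num) (by norm_num)
  rw [Hs_card hs] at hB
  obtain ⟨n₀, hn₀⟩ := sizes B₀ hε0
  refine ⟨ε / 5, c, by positivity, hc, ⌈5 / ε⌉₊, n₀, ?_⟩
  intro n hn h4
  obtain ⟨hx1, hx2, hx3⟩ := hn₀ n hn
  set x : ℝ := √(n : ℝ) with hx
  have hxn : x ^ 2 = n := Real.sq_sqrt (Nat.cast_nonneg _)
  have hx0 : 0 < x := by linarith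
  have hn1 : (1000000 : ℝ) ≤ n := by
    have := pow_le_pow_left₀ (by norm_num) hx1 2
    rw [← hxn]
    linarith
  -- the end points
  set b : ℕ := Nat.sqrt (30 * n) with hb
  set a : ℕ := Nat.sqrt (29 * n) with ha
  have hb1 : b ^ 2 ≤ 30 * n := by rw [hb, pow_two]; exact Nat.sqrt_le _
  have hb2 : 30 * n < (b + 1) ^ 2 := by rw [hb, pow_two]; exact Nat.lt_succ_sqrt _
  have ha1 : a ^ 2 ≤ 29 * n := by rw [ha, pow_two]; exact Nat.sqrt_le _
  have ha2 : 29 * n < (a + 1) ^ 2 := by rw [ha, pow_two]; exact Nat.lt_succ_sqrt _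
  have hb1' : (b : ℝ) ^ 2 ≤ 30 * x ^ 2 := by rw [hxn]; exact_mod_cast hb1
  have hb2' : 30 * x ^ 2 < ((b : ℝ) + 1) ^ 2 := by rw [hxn]; exact_mod_cast hb2
  have ha1' : (a : ℝ) ^ 2 ≤ 29 * x ^ 2 := by rw [hxn]; exact_mod_cast ha1
  have ha2' : 29 * x ^ 2 < ((a : ℝ) + 1) ^ 2 := by rw [hxn]; exact_mod_cast ha2
  have hbr : (b : ℝ) ≤ 5.48 * x := up hx0 (by norm_num) hb1' (by norm_num)
  have hbr2 : 5.477 * x ≤ (b : ℝ) + 1 := dn (Nat.cast_nonneg _) hb2' (by norm_num)
  have har : (a : ℝ) ≤ 5.386 * x := up hx0 (by norm_num) ha1' (by norm_num)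
  have har2 : 5.38 * x ≤ (a : ℝ) + 1 := dn (Nat.cast_nonneg _) ha2' (by norm_num)
  have hb3 : 1000 ≤ b := by
    have : (1000 : ℝ) ≤ b := by linarith only [hbr2, hx1]
    exact_mod_cast this
  have ha3 : 1000 ≤ a := by
    have : (1000 : ℝ) ≤ a := by linarith only [har2, hx1]
    exact_mod_cast this
  have hBc : ((b - 2 : ℕ) : ℝ) = (b : ℝ) - 2 := by
    rw [Nat.cast_sub (by omega)]
    norm_num
  have hBge : 5 * x ≤ ((b - 2 : ℕ) : ℝ) := by rw [hBc]; linarith
  have hbn : (b : ℝ) + 10 < n := by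
    rw [← hxn]
    exact le_sqr hbr hx1
  have hBle : ((b - 2 : ℕ) : ℝ) ≤ n := by
    rw [hBc]
    linarith
  have hmain := hB (b - 2) (by
      have : (B₀ : ℝ) ≤ ((b - 2 : ℕ) : ℝ) := by linarith
      exact_mod_cast this) (a + 10) (by
      have : ((b - 2 : ℕ) : ℝ) ≤ 2 * ((a : ℝ) + 10) := by rw [hBc]; linarith
      exact_mod_cast this) (by
      rw [hBc]
      push_cast
      linarith)
  -- the size of N
  set N : ℕ := Nat.sqrt (b - 2) with hN
  have hN1 : b - 2 < (N + 1) ^ 2 := by rw [hN, pow_two]; exact Nat.lt_succ_sqrt _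
  have hN2 : √x ≤ N := sqx (Nat.cast_nonneg _) hBge (by exact_mod_cast hN1) hx1
  have hn0 : (0 : ℝ) ≤ n := Nat.cast_nonneg _
  have hNε : (n : ℝ) ^ (ε / 5) < (N : ℝ) ^ ε := by
    have h1 : √x = (n : ℝ) ^ (1 / 4 : ℝ) := by
      rw [hx, Real.sqrt_eq_rpow, Real.sqrt_eq_rpow, ← Real.rpow_mul hn0]
      norm_num
    calc (n : ℝ) ^ (ε / 5) < (n : ℝ) ^ (ε / 4) := Real.rpow_lt_rpow_of_exponent_lt (by linarith) (by linarith)
      _ = (√x) ^ ε := by
        rw [h1, ← Real.rpow_mul hn0]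
        congr 1
        ring
      _ ≤ (N : ℝ) ^ ε := Real.rpow_le_rpow (Real.sqrt_nonneg _) hN2 hε0.le
  -- the counting
  have hsr : ∀ u ∈ ({-2, 0, 4, 10} : Finset ℤ), -2 ≤ u ∧ u ≤ 10 := by
    intro u hu
    simp only [mem_insert, mem_singleton] at hu
    rcases hu with h | h | h | h <;> subst h <;> norm_num
  have hs' := hsr s hs
  have hcount : (Good (Hs s) (t - s) N (a + 10) (b - 2) ε).card ≤
      ({p : ℕ | 29 * n ≤ p ^ 2 ∧ p ^ 2 ≤ 30 * n ∧
          (∃ x y z w : ℕ, n = x ^ 2 + y ^ 2 + z ^ 2 + w ^ 2 ∧ p = x + 2 * y + 5 * z) ∧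
          ((p : ℤ) + s).toNat.Prime ∧ ((p : ℤ) + t).toNat.primeFactorsList.length ≤ 2 ∧
          ∀ u ∈ ({-2, 0, 4, 10} : Finset ℤ), ((p : ℤ) + u).toNat.primeFactorsList.length ≤ ⌈5 / ε⌉₊ ∧
            ∀ q : ℕ, q.Prime → q ∣ ((p : ℤ) + u).toNat → (n : ℝ) ^ (ε / 5) < q}.ncard) := by
    rw [← Set.ncard_coe_finset]
    refine Set.ncard_le_ncard_of_injOn (fun w : ℕ => ((w : ℤ) - s).toNat) ?_ ?_ ?_
    · intro w hw
      rw [mem_coe, Good, mem_filter, mem_Ioc] at hw
      obtain ⟨⟨hw1, hw2⟩, hwp, hw3, -, hw5⟩ := hw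
      set p : ℕ := ((w : ℤ) - s).toNat with hp
      have hpe : (p : ℤ) = (w : ℤ) - s := by
        rw [hp, Int.toNat_of_nonneg]
        omega
      have hpa : a + 1 ≤ p := by omega
      have hpb : p ≤ b := by omega
      have hq1 : 29 * n ≤ p ^ 2 := by
        have := Nat.pow_le_pow_left hpa 2
        omega
      have hq2 : p ^ 2 ≤ 30 * n := by
        have := Nat.pow_le_pow_left hpb 2
        omega
      have hlarge : ∀ u ∈ ({-2, 0, 4, 10} : Finset ℤ), ∀ q : ℕ, q.Prime → q ∣ ((p : ℤ) + u).toNat →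
          (n : ℝ) ^ (ε / 5) < q := by
        intro u hu q hq hqd
        have hu' := hsr u hu
        have h1 : (q : ℤ) ∣ (p : ℤ) + u := by
          have h2 : (q : ℤ) ∣ ((((p : ℤ) + u).toNat : ℕ) : ℤ) := by exact_mod_cast hqd
          rwa [Int.toNat_of_nonneg (by omega)] at h2
        by_cases hus : u = s
        · subst hus
          rw [hpe, sub_add_cancel] at h1
          have h2 : q ∣ w := by exact_mod_cast h1
          have h3 : q = w := (Nat.prime_dvd_prime_iff_eq hq hwp).1 h2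
          rw [h3]
          have h5 : x ≤ w := by
            have : ((a + 10 : ℕ) : ℝ) ≤ w := by exact_mod_cast hw1.le
            push_cast at this
            linarith
          refine lt_of_lt_of_le ?_ h5
          rw [hx, Real.sqrt_eq_rpow]
          exact Real.rpow_lt_rpow_of_exponent_lt (by linarith) (by linarith)
        · have h2 := hw5 (u - s) (mem_Hs hu hus) q hq (by
            have e : (w : ℤ) + (u - s) = (p : ℤ) + u := by rw [hpe]; ring
            rwa [e])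
          linarith
      have hrep : ∃ x y z w : ℕ, n = x ^ 2 + y ^ 2 + z ^ 2 + w ^ 2 ∧ p = x + 2 * y + 5 * z := by
        have hp30 : Nat.Coprime p 30 := by
          apply Nat.coprime_of_dvd
          intro q hq hqp hq30
          have h1 := hlarge 0 (by decide) q hq (by
            rw [add_zero, Int.toNat_natCast]
            exact hqp)
          have h2 : (5 : ℝ) < q := by linarith
          have h3 : 5 < q := by exact_mod_cast h2
          have e : 30 = 2 * (3 * 5) := by norm_num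
          rw [e, hq.dvd_mul, hq.dvd_mul] at hq30
          rcases hq30 with h | h | h
          · have := Nat.le_of_dvd (by norm_num) h
            omega
          · have := Nat.le_of_dvd (by norm_num) h
            omega
          · have := Nat.le_of_dvd (by norm_num) h
            omega
        obtain ⟨x, y, z, w, h3, h5⟩ := Pool.Agent.H141R2.FS.rep h4 hp30 hq1 hq2
        exact ⟨x, y, z, w, h3, h5.symm⟩
      refine ⟨hq1, hq2, hrep, ?_, ?_, ?_⟩
      · have e : (p : ℤ) + s = w := by rw [hpe]; ring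
        rw [e, Int.toNat_natCast]
        exact hwp
      · have e : (p : ℤ) + t = (w : ℤ) + (t - s) := by rw [hpe]; ring
        rw [e]
        exact hw3
      · intro u hu
        refine ⟨?_, hlarge u hu⟩
        have hu' := hsr u hu
        refine few ?_ (hlarge u hu) ?_ (by linarith)
        · intro h0
          have : (p : ℤ) + u ≤ 0 := Int.toNat_eq_zero.1 h0
          omega
        · have h1 : ((((p : ℤ) + u).toNat : ℕ) : ℝ) < n := by
            have h2 : ((p : ℤ) + u).toNat ≤ b + 10 := by omega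
            have h3 : ((((p : ℤ) + u).toNat : ℕ) : ℝ) ≤ b + 10 := by exact_mod_cast h2
            exact lt_of_le_of_lt h3 hbn
          refine lt_of_lt_of_le h1 ?_
          rw [← Real.rpow_natCast, ← Real.rpow_mul hn0]
          have h2 : 1 ≤ ε / 5 * ((⌈5 / ε⌉₊ + 1 : ℕ) : ℝ) := by
            have h3 := Nat.le_ceil (5 / ε)
            push_cast
            have h5 : ε / 5 * (5 / ε) = 1 := by field_simp
            have h6 := mul_le_mul_of_nonneg_left h3 (show 0 ≤ ε / 5 by positivity)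
            rw [h5] at h6
            rw [mul_add, mul_one]
            have h7 : 0 < ε / 5 := by positivity
            linarith
          calc (n : ℝ) = (n : ℝ) ^ (1 : ℝ) := (Real.rpow_one _).symm
            _ ≤ _ := Real.rpow_le_rpow_of_exponent_le (by linarith) h2
    · intro w₁ hw₁ w₂ hw₂ he
      rw [mem_coe, Good, mem_filter, mem_Ioc] at hw₁ hw₂
      have h1 : ((w₁ : ℤ) - s).toNat = ((w₂ : ℤ) - s).toNat := he
      omega
    · apply Set.Finite.subset (Set.finite_Iic (30 * n))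
      intro p hp
      have h1 : p ^ 2 ≤ 30 * n := hp.2.1
      rw [Set.mem_Iic]
      exact (Nat.le_self_pow (by norm_num) p).trans h1
  have hcount' : ((Good (Hs s) (t - s) N (a + 10) (b - 2) ε).card : ℝ) ≤
      (({p : ℕ | 29 * n ≤ p ^ 2 ∧ p ^ 2 ≤ 30 * n ∧
          (∃ x y z w : ℕ, n = x ^ 2 + y ^ 2 + z ^ 2 + w ^ 2 ∧ p = x + 2 * y + 5 * z) ∧
          ((p : ℤ) + s).toNat.Prime ∧ ((p : ℤ) + t).toNat.primeFactorsList.length ≤ 2 ∧
          ∀ u ∈ ({-2, 0, 4, 10} : Finset ℤ), ((p : ℤ) + u).toNat.primeFactorsList.length ≤ ⌈5 / ε⌉₊ ∧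
            ∀ q : ℕ, q.Prime → q ∣ ((p : ℤ) + u).toNat → (n : ℝ) ^ (ε / 5) < q}.ncard : ℕ) : ℝ) := by
    exact_mod_cast hcount
  refine le_trans (le_trans ?_ hmain) hcount'
  have hlB : 0 < Real.log ((b - 2 : ℕ) : ℝ) := Real.log_pos (by linarith)
  have hlBn : Real.log ((b - 2 : ℕ) : ℝ) ≤ Real.log n := Real.log_le_log (by linarith) hBle
  apply div_le_div₀ (by positivity) _ (by positivity) (pow_le_pow_left₀ hlB.le hlBn 4)
  apply mul_le_mul_of_nonneg_left _ hc.le
  linarith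

end Pool.Agent.Results.MP_40574a_nt.ChenQuadruples
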