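import Pool.Agent.H76.NA.Sys
import Pool.Agent.Results.MP_40574a_nt.ChenQuadruples

/-!
# Four squares whose linear form starts a Chen-type quadruple: narrow arithmetic progressions
-/

set_option autoImplicit false

namespace Pool.Agent.Results.MP_40574a_nt.SzemerediQuadruples

open Finset Filter Pool.Agent.H76.CL Pool.Agent.H76.NA

/-- the classes modulo `q` of the zeros of the four numbers -/
def W (q : ℕ) : Finset ℕ := (range q).filter (fun m => ∃ u ∈ ({-2, 0, 4, 10} : Finset ℤ), (q : ℤ) ∣ (m : ℤ) + u)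

theorem mem_W {q n : ℕ} {u : ℤ} (hq : 0 < q) (hu : u ∈ ({-2, 0, 4, 10} : Finset ℤ)) (hd : (q : ℤ) ∣ (n : ℤ) + u) :
    n % q ∈ W q := by
  rw [W, mem_filter, mem_range]
  refine ⟨Nat.mod_lt _ hq, u, hu, ?_⟩
  have h := mod_sub n q
  have e : ((n % q : ℕ) : ℤ) + u = (((n % q : ℕ) : ℤ) - n) + ((n : ℤ) + u) := by ring
  rw [e]
  exact dvd_add h hd

theorem of_W {q n : ℕ} (h : n % q ∈ W q) : ∃ u ∈ ({-2, 0, 4, 10} : Finset ℤ), (q : ℤ) ∣ (n : ℤ) + u := by
  rw [W, mem_filter] at h
  obtain ⟨-, u, hu, hd⟩ := h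
  refine ⟨u, hu, ?_⟩
  have h1 := mod_sub n q
  have e : (n : ℤ) + u = ((n % q : ℕ) : ℤ) + u - (((n % q : ℕ) : ℤ) - n) := by ring
  rw [e]
  exact dvd_sub hd h1

theorem W_card_le (q : ℕ) (hq : q.Prime) : (W q).card ≤ 4 := by
  classical
  have h1 : W q ⊆ rts (({-2, 0, 4, 10} : Finset ℤ).image (fun u => ((1 : ℤ), u))) q := by
    intro m hm
    rw [W, mem_filter] at hm
    obtain ⟨h1, u, hu, hd⟩ := hm
    unfold rts
    rw [mem_filter]
    refine ⟨h1, (1, u), mem_image_of_mem _ hu, ?_⟩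
    have e : val ((1 : ℤ), u) m = (m : ℤ) + u := by
      show (1 : ℤ) * m + u = _
      ring
    rw [e]
    exact hd
  refine (card_le_card h1).trans ((card_rts_le hq ?_).trans (card_image_le.trans ?_))
  · intro g hg hd
    rw [mem_image] at hg
    obtain ⟨u, -, rfl⟩ := hg
    have hd' : (q : ℤ) ∣ 1 := hd
    have h3 : q ∣ 1 := by exact_mod_cast hd'
    exact hq.one_lt.ne' (Nat.dvd_one.1 h3)
  · decide

theorem W_card_ge (q : ℕ) (_hq : q.Prime) (h12 : 12 < q) : 4 ≤ (W q).card := by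
  classical
  have h1 : ({2, 0, q - 4, q - 10} : Finset ℕ) ⊆ W q := by
    intro m hm
    rw [W, mem_filter, mem_range]
    simp only [mem_insert, mem_singleton] at hm
    rcases hm with rfl | rfl | rfl | rfl
    · exact ⟨by omega, -2, by decide, by norm_num⟩
    · exact ⟨by omega, 0, by decide, by norm_num⟩
    · refine ⟨by omega, 4, by decide, ?_⟩
      rw [Nat.cast_sub (by omega)]
      push_cast
      rw [sub_add_cancel]
    · refine ⟨by omega, 10, by decide, ?_⟩
      rw [Nat.cast_sub (by omega)]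
      push_cast
      rw [sub_add_cancel]
  refine le_trans ?_ (card_le_card h1)
  rw [card_insert_of_notMem, card_insert_of_notMem, card_insert_of_notMem, card_singleton]
  · rw [mem_singleton]
    omega
  · rw [mem_insert, mem_singleton]
    omega
  · rw [mem_insert, mem_insert, mem_singleton]
    omega

/-- Let `s ≠ t` be two of the shifts `-2, 0, 4, 10`.  There are `δ > 0` and `r` such that for all `m` and `η > 0` there
is a `C` with the following property for every large `n` not divisible by `4`.  Let `T` be the set of the values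
`p = x + 2 y + 5 z` taken at representations `n = x² + y² + z² + w²` in natural numbers such that `29 n ≤ p² ≤ 30 n`,
`p + s` is prime, `p + t` has at most two prime factors, and all four numbers `p - 2, p, p + 4, p + 10` have at most `r`
prime factors, all of them larger than `n ^ δ`.  Then every subset `S` of `T` with at least `η |T|` elements contains an
arithmetic progression of `m` terms with a difference `1 ≤ d ≤ (log n) ^ C`. -/
theorem result : ∀ s ∈ ({-2, 0, 4, 10} : Finset ℤ), ∀ t ∈ ({-2, 0, 4, 10} : Finset ℤ), s ≠ t →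
    ∃ δ : ℝ, 0 < δ ∧ ∃ r : ℕ, ∀ (m : ℕ) (η : ℝ), 0 < η → ∃ C n₀ : ℕ, ∀ n : ℕ, n₀ ≤ n → ¬ 4 ∣ n →
      ∀ T : Set ℕ, T = {p : ℕ | 29 * n ≤ p ^ 2 ∧ p ^ 2 ≤ 30 * n ∧
          (∃ x y z w : ℕ, n = x ^ 2 + y ^ 2 + z ^ 2 + w ^ 2 ∧ p = x + 2 * y + 5 * z) ∧
          ((p : ℤ) + s).toNat.Prime ∧ ((p : ℤ) + t).toNat.primeFactorsList.length ≤ 2 ∧
          ∀ u ∈ ({-2, 0, 4, 10} : Finset ℤ), ((p : ℤ) + u).toNat.primeFactorsList.length ≤ r ∧
            ∀ q : ℕ, q.Prime → q ∣ ((p : ℤ) + u).toNat → (n : ℝ) ^ δ < q} →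
      ∀ S : Set ℕ, S ⊆ T → η * (T.ncard : ℝ) ≤ (S.ncard : ℝ) →
        ∃ a d : ℕ, 1 ≤ d ∧ (d : ℝ) ≤ Real.log n ^ C ∧ ∀ j < m, a + j * d ∈ S := by
  classical
  intro s hs t ht hst
  obtain ⟨δ, c, hδ, hc, r, n₀, hchen⟩ := Pool.Agent.Results.MP_40574a_nt.ChenQuadruples.result s hs t ht hst
  obtain ⟨C₀, hC₀, hVV⟩ := Pool.Agent.Q234.NPU.VV_le 4 12
  refine ⟨δ, hδ, r, fun m η hη => ?_⟩
  obtain ⟨C, x₀, hz⟩ := szem_ne 4 δ (c / (96 * C₀)) (1 / 100) hδ (by positivity) (by norm_num) m η hη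
  refine ⟨C, n₀ + x₀ ^ 2 + 1000000, ?_⟩
  intro n hn h4 T hT
  have hm := hchen n (by omega) h4
  rw [← hT] at hm
  have hnr : (1000000 : ℝ) ≤ n := by exact_mod_cast (by omega : 1000000 ≤ n)
  have hn0 : (0 : ℝ) < n := by linarith
  set b : ℕ := Nat.sqrt (30 * n) with hb
  set a : ℕ := Nat.sqrt (29 * n) with ha
  have hb1 : b ^ 2 ≤ 30 * n := by rw [hb, pow_two]; exact Nat.sqrt_le _
  have hb2 : 30 * n < (b + 1) ^ 2 := by rw [hb, pow_two]; exact Nat.lt_succ_sqrt _
  have ha1 : a ^ 2 ≤ 29 * n := by rw [ha, pow_two]; exact Nat.sqrt_le _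
  have ha2 : 29 * n < (a + 1) ^ 2 := by rw [ha, pow_two]; exact Nat.lt_succ_sqrt _
  set x : ℝ := √(n : ℝ) with hx
  have hxn : x ^ 2 = n := Real.sq_sqrt hn0.le
  have hx1 : 1000 ≤ x := by
    rw [hx]
    apply Real.le_sqrt_of_sq_le
    have : (1000 : ℝ) ^ 2 = 1000000 := by norm_num
    rw [this]
    exact hnr
  have hx0 : 0 < x := by linarith
  have hb1' : (b : ℝ) ^ 2 ≤ 30 * x ^ 2 := by rw [hxn]; exact_mod_cast hb1
  have hb2' : 30 * x ^ 2 < ((b : ℝ) + 1) ^ 2 := by rw [hxn]; exact_mod_cast hb2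
  have ha1' : (a : ℝ) ^ 2 ≤ 29 * x ^ 2 := by rw [hxn]; exact_mod_cast ha1
  have hbr : (b : ℝ) ≤ 6 * x := by
    refine Pool.Agent.Results.MP_40574a_nt.ChenQuadruples.up hx0 (by norm_num) hb1' (by norm_num)
  have hbr2 : 5.477 * x ≤ (b : ℝ) + 1 :=
    Pool.Agent.Results.MP_40574a_nt.ChenQuadruples.dn (Nat.cast_nonneg _) hb2' (by norm_num)
  have har : (a : ℝ) ≤ 5.386 * x :=
    Pool.Agent.Results.MP_40574a_nt.ChenQuadruples.up hx0 (by norm_num) ha1' (by norm_num)
  have hbx : x ≤ b := by linarith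
  have hb1000 : 1000 ≤ b := by
    have : (1000 : ℝ) ≤ b := by linarith
    exact_mod_cast this
  have ha1' : 1 ≤ a := by
    by_contra hcon
    have : a = 0 := by omega
    rw [this] at ha2
    omega
  have hbn : b ≤ n := by
    have h1 : (b : ℝ) ≤ n := by
      rw [← hxn]
      nlinarith
    exact_mod_cast h1
  have hx₀b : x₀ ≤ b := by
    have h1 : x₀ ^ 2 ≤ 30 * n := by omega
    rw [hb, Nat.le_sqrt, ← pow_two]
    exact h1
  have hTsub : T ⊆ ((Ioc (a - 1) b : Finset ℕ) : Set ℕ) := by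
    intro p hp
    rw [hT] at hp
    obtain ⟨h1, h2, -⟩ := hp
    rw [mem_coe, mem_Ioc]
    constructor
    · have h3 : a ≤ p := by
        by_contra hcon
        push Not at hcon
        have h4 : (p + 1) ^ 2 ≤ a ^ 2 := Nat.pow_le_pow_left hcon 2
        nlinarith
      omega
    · rw [hb, Nat.le_sqrt, ← pow_two]
      exact h2
  have hTf : T.Finite := Set.Finite.subset (finite_toSet _) hTsub
  set U : Finset ℕ := hTf.toFinset with hU
  have hTU : T = (U : Set ℕ) := by rw [hU, Set.Finite.coe_toFinset]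
  have hcardU : (T.ncard : ℝ) = U.card := by rw [hTU, Set.ncard_coe_finset]
  have hln : 0 < Real.log (n : ℝ) := Real.log_pos (by linarith)
  have hpos : 0 < T.ncard := by
    have h1 : 0 < (T.ncard : ℝ) := lt_of_lt_of_le (by positivity) hm
    exact_mod_cast h1
  have hsr : ∀ u ∈ ({-2, 0, 4, 10} : Finset ℤ), -2 ≤ u := by decide
  have hmain : ∀ S : Set ℕ, S ⊆ T → η * (T.ncard : ℝ) ≤ (S.ncard : ℝ) →
        ∃ a d : ℕ, 1 ≤ d ∧ (d : ℝ) ≤ Real.log b ^ C ∧ ∀ j < m, a + j * d ∈ S := by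
    apply to_set hTU
    intro S hSU hSη
    refine hz b hx₀b (a - 1) ?_ W (fun p hp => ⟨W_card_le p hp, fun c hc => mem_range.1 (mem_filter.1 hc).1⟩)
      U ?_ ?_ ?_ ?_ S hSU hSη
    · have h1 : ((a - 1 : ℕ) : ℝ) ≤ a := by exact_mod_cast Nat.sub_le _ _
      nlinarith
    · rw [← card_pos]
      rw [hTU, Set.ncard_coe_finset] at hpos
      exact hpos
    · intro p hpU
      have : p ∈ T := by rw [hTU]; exact mem_coe.2 hpU
      exact mem_coe.1 (hTsub this)
    · intro p hpU q hq hqx hcon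
      have hpT : p ∈ T := by rw [hTU]; exact mem_coe.2 hpU
      have hpab := mem_coe.1 (hTsub hpT)
      rw [mem_Ioc] at hpab
      rw [hT] at hpT
      obtain ⟨h1, h2, -, -, -, h6⟩ := hpT
      obtain ⟨u, hu, hd⟩ := of_W hcon
      have hu2 := hsr u hu
      have hp2 : 2 ≤ p := by
        by_contra hcon'
        have : p ≤ 1 := by omega
        have : p ^ 2 ≤ 1 := by nlinarith
        omega
      have h7 := (h6 u hu).2 q hq (by
        have h8 : (q : ℤ) ∣ ((((p : ℤ) + u).toNat : ℕ) : ℤ) := by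
          rwa [Int.toNat_of_nonneg (by omega)]
        exact_mod_cast h8)
      have h8 : (b : ℝ) ^ δ ≤ (n : ℝ) ^ δ := Real.rpow_le_rpow (Nat.cast_nonneg _) (by exact_mod_cast hbn) hδ.le
      linarith
    · rw [← hcardU]
      have h1 := hVV b (by omega) W (fun p hp => (card_filter_le _ _).trans (by rw [card_range]))
        (fun p hp h => W_card_ge p hp h)
      have hlb : 0 < Real.log (b : ℝ) := Real.log_pos (by exact_mod_cast (by omega : 1 < b))
      have hlb2 : Real.log n / 2 ≤ Real.log b := by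
        have h2 : Real.log n = 2 * Real.log x := by
          rw [← hxn, Real.log_pow]
          push_cast
          ring
        rw [h2]
        have := Real.log_le_log hx0 hbx
        linarith
      have h2 : (Real.log n / 2) ^ 4 ≤ Real.log b ^ 4 := pow_le_pow_left₀ (by positivity) hlb2 4
      have h3 : Pool.Agent.Y843.HS.VV W 0 b ≤ C₀ * 16 / Real.log n ^ 4 := by
        refine h1.trans ?_
        rw [div_le_div_iff₀ (by positivity) (by positivity)]
        have e : (Real.log n / 2) ^ 4 = Real.log n ^ 4 / 16 := by ring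
        rw [e] at h2
        have h3 : Real.log n ^ 4 ≤ 16 * Real.log b ^ 4 := by linarith
        nlinarith
      have h4' : (0 : ℝ) ≤ ((4 : ℕ) : ℝ) := Nat.cast_nonneg _
      have h5 : c / (96 * C₀) * b * Pool.Agent.Y843.HS.VV W 0 b ≤ c * x / Real.log n ^ 4 := by
        calc c / (96 * C₀) * b * Pool.Agent.Y843.HS.VV W 0 b
            ≤ c / (96 * C₀) * b * (C₀ * 16 / Real.log n ^ 4) := mul_le_mul_of_nonneg_left h3 (by positivity)
          _ = c * (b / 6) / Real.log n ^ 4 := by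
              field_simp
              ring
          _ ≤ c * x / Real.log n ^ 4 := by
              apply div_le_div_of_nonneg_right _ (by positivity)
              apply mul_le_mul_of_nonneg_left _ hc.le
              linarith
      linarith
  intro S hS hSη
  obtain ⟨u, d, h1, h2, h3⟩ := hmain S hS hSη
  refine ⟨u, d, h1, h2.trans ?_, h3⟩
  apply pow_le_pow_left₀ (Real.log_nonneg (by exact_mod_cast (by omega : 1 ≤ b)))
  exact Real.log_le_log (by exact_mod_cast (by omega : 0 < b)) (by exact_mod_cast hbn)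

end Pool.Agent.Results.MP_40574a_nt.SzemerediQuadruples
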